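import Mathlib
import Pool.Agent.H74.Stub.Defs

set_option autoImplicit false

/-!
# Definitions: the scope of the Bodirsky–Pinsker conjecture, oriented graphs as templates

Everything is stated for relational structures in the sense of Mathlib
(`FirstOrder.Language.Structure`).  Primitive positive definability (`PPDefinable`), atomic
formulas (`Atom`) and pp-constructions (`PPConstructs`) are defined in
`Pool.Agent.H74.Stub.Defs`.
-/

namespace Pool.Agent.H17.DG

open FirstOrder FirstOrder.Language Pool.Agent.H74.Stub

/-- `L` is a finite relational signature. -/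
def FinRel (L : FirstOrder.Language.{0, 0}) : Prop :=
  L.IsRelational ∧ Finite (Σ n, L.Relations n)

/-- `B` is finitely bounded: there is a finite family `N` of finite `L`-structures such that a
finite `L`-structure `Y` embeds into `B` if and only if no member of the family embeds
into `Y`. -/
def FinitelyBounded (L : FirstOrder.Language.{0, 0}) (B : Type) [L.Structure B] : Prop :=
  ∃ (ι : Type) (_ : Finite ι) (N : ι → Type) (_ : ∀ i, Finite (N i))
    (_ : ∀ i, L.Structure (N i)),
    ∀ (Y : Type) [Finite Y] [L.Structure Y],
      Nonempty (L.Embedding Y B) ↔ ∀ i, IsEmpty (L.Embedding (N i) Y)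

/-- The `L`-structure on `D` is a reduct of the `L'`-structure on `D`: it arises from the latter
by discarding some of its relations (and renaming the relation symbols). -/
def IsReduct (L L' : FirstOrder.Language.{0, 0}) (D : Type) [L.Structure D] [L'.Structure D] : Prop :=
  ∃ φ : ∀ n, L.Relations n → L'.Relations n, (∀ n, Function.Injective (φ n)) ∧
    ∀ (n : ℕ) (R : L.Relations n) (x : Fin n → D),
      Structure.RelMap R x ↔ Structure.RelMap (φ n R) x

/-- The scope of the Bodirsky–Pinsker conjecture: `A` is a structure with a finite relational
signature and a countable (nonempty) domain which is a reduct of a homogeneous finitely bounded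
structure with a finite relational signature. -/
def InScope (L : FirstOrder.Language.{0, 0}) (A : Type) [L.Structure A] : Prop :=
  FinRel L ∧ Countable A ∧ Nonempty A ∧
    ∃ (L' : FirstOrder.Language.{0, 0}) (_ : L'.Structure A), FinRel L' ∧ L'.IsUltrahomogeneous A ∧
      FinitelyBounded L' A ∧ IsReduct L L' A

/-- The only symbol of the signature of digraphs. -/
inductive ArcRel : ℕ → Type
  | arc : ArcRel 2

/-- The signature of digraphs: one binary relation symbol. -/
def Dig : FirstOrder.Language.{0, 0} := ⟨fun _ => Empty, ArcRel⟩

/-- The digraph with vertex set `V` and arc relation `E`, as a structure. -/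
@[reducible] def digStr {V : Type} (E : V → V → Prop) : Dig.Structure V where
  funMap := fun f => f.elim
  RelMap := fun {n} R v => match n, R, v with
    | _, ArcRel.arc, v => E (v 0) (v 1)

/-- The structure `K₃`. -/
@[reducible] def K3 : Dig.Structure (Fin 3) := digStr (fun i j => i ≠ j)

/-- The automorphisms of the digraph `(V; E)`. -/
def IsAut {V : Type} (E : V → V → Prop) (g : V ≃ V) : Prop := ∀ u v, E (g u) (g v) ↔ E u v

/-- `k`-homogeneous: every isomorphism between induced subdigraphs with at most `k` vertices
extends to an automorphism. -/
def KHomogeneous (k : ℕ) {V : Type} (E : V → V → Prop) : Prop :=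
  ∀ (n : ℕ) (x y : Fin n → V), n ≤ k → Function.Injective x → Function.Injective y →
    (∀ i j, E (x i) (x j) ↔ E (y i) (y j)) → ∃ g : V ≃ V, IsAut E g ∧ ∀ i, g (x i) = y i

/-- No algebraicity: for every finite set `S` of vertices and every vertex `x` outside of `S`
the orbit of `x` under the automorphisms which fix `S` pointwise is infinite. -/
def NoAlgebraicity {V : Type} (E : V → V → Prop) : Prop :=
  ∀ (S : Finset V) (x : V), x ∉ S →
    {y : V | ∃ g : V ≃ V, IsAut E g ∧ (∀ s ∈ S, g s = s) ∧ g x = y}.Infinite

/-- The homomorphisms between digraphs. -/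
def IsHomo {V W : Type} (E : V → V → Prop) (F : W → W → Prop) (h : V → W) : Prop :=
  ∀ u v, E u v → F (h u) (h v)

/-- The restricted templates: infinite oriented graphs in the scope of the conjecture which are
`k`-homogeneous and have no algebraicity. -/
def OrientedTemplate (k : ℕ) (G : Type) (E : G → G → Prop) : Prop :=
  @InScope Dig G (digStr E) ∧ Infinite G ∧ (∀ x y, E x y → ¬ E y x) ∧
    KHomogeneous k E ∧ NoAlgebraicity E

/-- `CSP (G; E)` reduces to `CSP A` by the following instance transformation, given by numbers
`k`, `m` and a list `l` of atomic formulas whose variables are the `(k + 1)`-tuples of elements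
of `Fin m`: a finite digraph `(X; F)` has a homomorphism to `(G; E)` if and only if it has
neither loops nor directed `2`-cycles and one can assign elements of `A` to the `(k + 1)`-tuples
of elements of `X` such that, for every transitive tournament `x 0, …, x (m - 1)` in `(X; F)`,
the elements assigned to its `(k + 1)`-tuples satisfy all the formulas of `l`. -/
def TournamentReduction (k : ℕ) (G : Type) (E : G → G → Prop) (L : FirstOrder.Language.{0, 0})
    (A : Type) [L.Structure A] : Prop :=
  ∃ (m : ℕ) (l : List (Atom L (Fin (k + 1) → Fin m))),
    ∀ (X : Type) [Finite X] (F : X → X → Prop),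
      (∃ h : X → G, IsHomo F E h) ↔ (∀ x y, F x y → ¬ F y x) ∧
        ∃ c : (Fin (k + 1) → X) → A, ∀ x : Fin m → X, (∀ i j, i < j → F (x i) (x j)) →
          ∀ a ∈ l, a.Holds (fun p => c (fun i => x (p i)))

instance : Dig.IsRelational := fun _ => inferInstanceAs (IsEmpty Empty)

theorem finRel_dig : FinRel Dig := by
  refine ⟨inferInstance, ?_⟩
  have : ∀ x : (Σ n, Dig.Relations n), x = ⟨2, ArcRel.arc⟩ := by
    rintro ⟨n, R⟩
    cases R with
    | arc => rfl
  have : Subsingleton (Σ n, Dig.Relations n) := ⟨fun a b => (this a).trans (this b).symm⟩
  exact Finite.of_subsingleton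

end Pool.Agent.H17.DG
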