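import Mathlib
import Pool.Agent.H17.DG.Defs
import Pool.Agent.H17.DG.BF
import Pool.Agent.H74.Stub.PP

set_option autoImplicit false

/-!
# The condition on the transitive tournaments with `m` vertices
-/

namespace Pool.Agent.H17.DG

open FirstOrder FirstOrder.Language Pool.Agent.H74.Stub

/-- The `b`-th block of positions. -/
def blk {M k : ℕ} (b : Fin M) : Fin (k + 1) → Fin (M * (k + 1)) := fun j => finProdFinEquiv (b, j)

theorem blk_strictMono {M k : ℕ} (b : Fin M) : StrictMono (blk (k := k) b) := by
  intro i j hij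
  rw [Fin.lt_def]
  simp only [blk, finProdFinEquiv_apply_val]
  omega

theorem blk_eq_iff {M k : ℕ} {b b' : Fin M} {j j' : Fin (k + 1)} :
    blk b j = blk b' j' ↔ b = b' ∧ j = j' := by
  unfold blk
  rw [finProdFinEquiv.apply_eq_iff_eq, Prod.mk.injEq]

theorem blk_injective {M k : ℕ} : Function.Injective (blk (M := M) (k := k)) := by
  intro b b' h
  exact (blk_eq_iff.1 (congrFun h 0)).1

theorem blk_lt {M k : ℕ} {b b' : Fin M} (h : b < b') (j j' : Fin (k + 1)) :
    blk b j < blk b' j' := by
  rw [Fin.lt_def]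
  simp only [blk, finProdFinEquiv_apply_val]
  have h1 : (b : ℕ) + 1 ≤ b' := h
  have h2 := j.2
  have h3 : (k + 1) * ((b : ℕ) + 1) ≤ (k + 1) * b' := Nat.mul_le_mul_left _ h1
  have h4 : (k + 1) * ((b : ℕ) + 1) = (k + 1) * b + (k + 1) := by ring
  omega

section

variable (L : FirstOrder.Language.{0, 0}) (A : Type) [L.Structure A]

/-- the nonempty relations -/
abbrev NR : Type := {r : Σ n, L.Relations n // ∃ x : Fin r.1 → A, Structure.RelMap r.2 x}

/-- the argument places of the nonempty relations -/
abbrev Pl : Type := Σ r : NR L A, Fin r.1.1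

variable [Finite (Σ n, L.Relations n)]

noncomputable instance : Fintype (NR L A) := Fintype.ofFinite _

/-- the number of argument places -/
noncomputable def sz : ℕ := Fintype.card (Pl L A)

/-- the number of blocks -/
noncomputable abbrev MB : ℕ := sz L A + 4

/-- the block of an argument place -/
noncomputable def pl : Pl L A → Fin (MB L A) := fun a => Fin.castAdd 4 (Fintype.equivFin (Pl L A) a)

/-- the first special block -/
noncomputable def b2 : Fin (MB L A) := Fin.natAdd (sz L A) 2
/-- the second special block -/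
noncomputable def b3 : Fin (MB L A) := Fin.natAdd (sz L A) 3

theorem b2_val : (b2 L A : ℕ) = sz L A + 2 := rfl
theorem b3_val : (b3 L A : ℕ) = sz L A + 3 := rfl
theorem pl_val (a : Pl L A) : (pl L A a : ℕ) = (Fintype.equivFin (Pl L A) a : ℕ) := rfl
theorem pl_lt (a : Pl L A) : (pl L A a : ℕ) < sz L A := (Fintype.equivFin (Pl L A) a).2

theorem b2_lt_b3 : b2 L A < b3 L A := by
  rw [Fin.lt_def, b2_val, b3_val]
  omega

theorem pl_injective : Function.Injective (pl L A) := by
  intro a b h
  have h1 := congrArg Fin.val h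
  rw [pl_val, pl_val] at h1
  exact (Fintype.equivFin (Pl L A)).injective (Fin.ext h1)

theorem pl_ne_b2 (a : Pl L A) : pl L A a ≠ b2 L A := by
  intro h
  have h1 := congrArg Fin.val h
  have h2 := pl_lt L A a
  rw [h1, b2_val] at h2
  omega

theorem pl_ne_b3 (a : Pl L A) : pl L A a ≠ b3 L A := by
  intro h
  have h1 := congrArg Fin.val h
  have h2 := pl_lt L A a
  rw [h1, b3_val] at h2
  omega

variable (k : ℕ)

/-- the size of the transitive tournaments which carry constraints -/
noncomputable abbrev sm : ℕ := MB L A * (k + 1)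

/-- The constraints. -/
noncomputable def lQ : List (Atom L (Fin (k + 1) → Fin (sm L A k))) :=
  Atom.eq (blk (b2 L A)) (blk (b3 L A)) ::
    (Finset.univ : Finset (NR L A)).toList.map
      (fun r => Atom.rel r.1.2 (fun i => blk (pl L A ⟨r, i⟩)))

/-- The condition on the colours. -/
def QQ (c : (Fin (k + 1) → Fin (sm L A k)) → A) : Prop := ∀ a ∈ lQ L A k, a.Holds c

theorem QQ_iff (c : (Fin (k + 1) → Fin (sm L A k)) → A) :
    QQ L A k c ↔ c (blk (b2 L A)) = c (blk (b3 L A)) ∧
      ∀ r : NR L A, Structure.RelMap r.1.2 (fun i => c (blk (pl L A ⟨r, i⟩))) := by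
  unfold QQ lQ
  rw [List.forall_mem_cons]
  refine and_congr Iff.rfl ?_
  constructor
  · intro h r
    exact h _ (List.mem_map_of_mem (Finset.mem_toList.2 (Finset.mem_univ r)))
  · intro h a ha
    obtain ⟨r, -, rfl⟩ := List.mem_map.1 ha
    exact h r

theorem QQ_loc : Loc (QQ L A k) := by
  intro c c' h hc
  rw [QQ_iff] at hc ⊢
  have h1 : ∀ b, c (blk b) = c' (blk b) := fun b => h _ (blk_strictMono b)
  simpa only [h1] using hc

theorem sm_pos : 0 < sm L A k := by
  have : 0 < MB L A := by unfold MB; omega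
  positivity

theorem sm_large : 3 * (k + 1) < sm L A k := by
  have : 4 ≤ MB L A := by unfold MB; omega
  calc 3 * (k + 1) < 4 * (k + 1) := by omega
    _ ≤ MB L A * (k + 1) := Nat.mul_le_mul_right _ this

variable {L A}

/-- The condition is preserved by endomorphisms. -/
theorem QQ_hom (β : A → A)
    (hβ : ∀ {n : ℕ} (R : L.Relations n) (x : Fin n → A), Structure.RelMap R x →
      Structure.RelMap R (fun i => β (x i))) (c : (Fin (k + 1) → Fin (sm L A k)) → A)
    (hc : QQ L A k c) : QQ L A k (fun p => β (c p)) := by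
  rw [QQ_iff] at hc ⊢
  exact ⟨congrArg β hc.1, fun r => hβ _ _ (hc.2 r)⟩

end

end Pool.Agent.H17.DG
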