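import Mathlib
import Pool.Agent.H17.DG.Homog

set_option autoImplicit false

/-!
# Finite boundedness
-/

namespace Pool.Agent.H17.DG

open FirstOrder FirstOrder.Language Pool.Agent.H74.Stub Set

theorem finite_structure {L : FirstOrder.Language.{0, 0}} (hL : FinRel L) (n : ℕ) :
    Finite (L.Structure (Fin n)) := by
  have h1 := hL.1
  have h2 := hL.2
  let f : L.Structure (Fin n) → ∀ r : Σ l, L.Relations l, Set (Fin r.1 → Fin n) :=
    fun S r => {x | S.RelMap r.2 x}
  refine Finite.of_injective f ?_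
  intro S S' h
  apply FirstOrder.Language.Structure.ext
  · funext l g
    exact isEmptyElim g
  · funext l R x
    have h3 := congrFun h ⟨l, R⟩
    have h4 : (x ∈ {x | S.RelMap R x}) = (x ∈ {x | S'.RelMap R x}) := by
      have h5 : {x | S.RelMap R x} = {x | S'.RelMap R x} := h3
      rw [h5]
    exact h4

/-- Local embeddability. -/
def LocE (L : FirstOrder.Language.{0, 0}) (K : ℕ) (Y G : Type) [L.Structure Y] [L.Structure G] :
    Prop :=
  ∀ (I : Type) (_ : Finite I), Nat.card I ≤ K → ∀ y : I → Y, ∃ z : I → G, IsoT L y z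

/-- If local embeddability implies embeddability, the structure is finitely bounded. -/
theorem fb_of_local {L : FirstOrder.Language.{0, 0}} (hL : FinRel L) {G : Type} [L.Structure G]
    (K : ℕ) (h : ∀ (Y : Type) (_ : Finite Y) (_ : L.Structure Y), LocE L K Y G →
      Nonempty (L.Embedding Y G)) : FinitelyBounded L G := by
  classical
  have h1 := hL.1
  have hfin := fun n => finite_structure hL n
  refine ⟨Σ n : Fin (K + 1), {S : L.Structure (Fin n) //
      ¬ Nonempty (@FirstOrder.Language.Embedding L (Fin n) G S _)}, inferInstance,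
    fun i => Fin i.1, fun i => inferInstance, fun i => i.2.1, ?_⟩
  intro Y hY sY
  constructor
  · rintro ⟨ε⟩ ⟨n, S, hS⟩
    refine ⟨fun δ => hS ⟨?_⟩⟩
    exact @FirstOrder.Language.Embedding.comp L (Fin n) Y S sY G _ ε δ
  · intro hbad
    apply h Y hY sY
    intro I hI hcard y
    have hT : Finite (range y) := inferInstance
    let n := Nat.card (range y)
    have hn : n ≤ K := (Finite.card_range_le y).trans hcard
    let e : range y ≃ Fin n := Finite.equivFin (range y)
    let S : L.Structure (Fin n) :=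
      { funMap := fun f => isEmptyElim f
        RelMap := fun R x => Structure.RelMap R (fun i => ((e.symm (x i) : range y) : Y)) }
    have hδ : @FirstOrder.Language.Embedding L (Fin n) Y S sY :=
      @FirstOrder.Language.Embedding.mk L (Fin n) Y S sY
        ⟨fun i => ((e.symm i : range y) : Y), fun i j h => e.symm.injective (Subtype.ext h)⟩
        (fun f => isEmptyElim f) (fun R x => Iff.rfl)
    have hne : Nonempty (@FirstOrder.Language.Embedding L (Fin n) G S _) := by
      by_contra hcon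
      exact (hbad ⟨⟨n, Nat.lt_succ_of_le hn⟩, ⟨S, hcon⟩⟩).false hδ
    obtain ⟨ε⟩ := hne
    refine ⟨fun i => ε (e ⟨y i, i, rfl⟩), ?_, ?_⟩
    · intro i j
      constructor
      · intro h2
        have h3 : (⟨y i, i, rfl⟩ : range y) = ⟨y j, j, rfl⟩ := Subtype.ext h2
        show ε (e ⟨y i, i, rfl⟩) = ε (e ⟨y j, j, rfl⟩)
        rw [h3]
      · intro h2
        exact congrArg Subtype.val (e.injective (ε.injective h2))
    · intro m R t
      have h2 := @FirstOrder.Language.Embedding.map_rel L (Fin n) G S _ ε m R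
        (fun i => e ⟨y (t i), t i, rfl⟩)
      have h3 : S.RelMap R (fun i => e ⟨y (t i), t i, rfl⟩) ↔
          Structure.RelMap R (fun i => y (t i)) := by
        show Structure.RelMap R (fun i => ((e.symm (e ⟨y (t i), t i, rfl⟩) : range y) : Y)) ↔ _
        simp only [Equiv.symm_apply_apply]
      rw [← h3]
      exact h2.symm

section

variable {LB : FirstOrder.Language.{0, 0}} {A : Type} [LB.Structure A]
  {k : ℕ} {G : Type} {C : CG k A G} {Y : Type} [sY : (LBp LB k).Structure Y]

/-- arcs -/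
def AY (LB : FirstOrder.Language.{0, 0}) (k : ℕ) {Y : Type} [(LBp LB k).Structure Y] (a b : Y) :
    Prop := Structure.RelMap (L := LBp LB k) (n := 2) RelB.arc ![a, b]

/-- same colour -/
def SY (LB : FirstOrder.Language.{0, 0}) {k : ℕ} {Y : Type} [(LBp LB k).Structure Y]
    (t t' : Fin (k + 1) → Y) : Prop :=
  Structure.RelMap (L := LBp LB k) (n := 2 * (k + 1)) RelB.same (unbl ![t, t'])

/-- pulled back relations -/
def PY {k : ℕ} {Y : Type} [(LBp LB k).Structure Y] {n : ℕ} (R : LB.Relations n)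
    (t : Fin n → Fin (k + 1) → Y) : Prop :=
  Structure.RelMap (L := LBp LB k) (n := n * (k + 1)) (RelB.pull R) (unbl t)

theorem two_eq {X : Type} (x : Fin 2 → X) : ![x 0, x 1] = x := by
  funext i
  match i with
  | 0 => rfl
  | 1 => rfl

theorem AY_iff (x : Fin 2 → Y) : AY LB k (x 0) (x 1) ↔
    Structure.RelMap (L := LBp LB k) (n := 2) RelB.arc x := by
  unfold AY
  rw [two_eq]

theorem SY_iff (x : Fin (2 * (k + 1)) → Y) : SY LB (bl x 0) (bl x 1) ↔
    Structure.RelMap (L := LBp LB k) (n := 2 * (k + 1)) RelB.same x := by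
  unfold SY
  rw [two_eq, unbl_bl]

theorem PY_iff {n : ℕ} (R : LB.Relations n) (x : Fin (n * (k + 1)) → Y) : PY R (bl x) ↔
    Structure.RelMap (L := LBp LB k) (n := n * (k + 1)) (RelB.pull R) x := by
  unfold PY
  rw [unbl_bl]

theorem T1 {I : Type} {y : I → Y} {z : I → G} (h : @IsoT (LBp LB k) Y G sY (strB LB C) I y z)
    (i j : I) : AY LB k (y i) (y j) ↔ C.arc (z i) (z j) := by
  let _ : (LBp LB k).Structure G := strB LB C
  have h1 := h.rel (n := 2) RelB.arc ![i, j]
  rw [← AY_iff] at h1
  exact h1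

theorem T2 {I : Type} {y : I → Y} {z : I → G} (h : @IsoT (LBp LB k) Y G sY (strB LB C) I y z)
    (s s' : Fin (k + 1) → I) : SY LB (fun i => y (s i)) (fun i => y (s' i)) ↔
      Tr C.arc (fun i => z (s i)) ∧ Tr C.arc (fun i => z (s' i)) ∧
        C.col (fun i => z (s i)) = C.col (fun i => z (s' i)) := by
  let _ : (LBp LB k).Structure G := strB LB C
  have h1 := h.rel (n := 2 * (k + 1)) RelB.same (unbl ![s, s'])
  rw [← SY_iff] at h1
  have e0 : ∀ {X : Type} (f : I → X), bl (fun i => f (unbl ![s, s'] i)) 0 = fun i => f (s i) := by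
    intro X f
    funext j
    exact congrArg f (congrFun (congrFun (bl_unbl ![s, s']) 0) j)
  have e1 : ∀ {X : Type} (f : I → X), bl (fun i => f (unbl ![s, s'] i)) 1 = fun i => f (s' i) := by
    intro X f
    funext j
    exact congrArg f (congrFun (congrFun (bl_unbl ![s, s']) 1) j)
  rw [e0, e1] at h1
  rw [h1]
  have h2 : Structure.RelMap (L := LBp LB k) (n := 2 * (k + 1)) RelB.same
      (fun i => z (unbl ![s, s'] i)) ↔ (Tr C.arc (bl (fun i => z (unbl ![s, s'] i)) 0) ∧
        Tr C.arc (bl (fun i => z (unbl ![s, s'] i)) 1) ∧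
        C.col (bl (fun i => z (unbl ![s, s'] i)) 0) =
          C.col (bl (fun i => z (unbl ![s, s'] i)) 1)) := Iff.rfl
  rw [e0, e1] at h2
  exact h2

theorem T3 {I : Type} {y : I → Y} {z : I → G} (h : @IsoT (LBp LB k) Y G sY (strB LB C) I y z)
    {n : ℕ} (R : LB.Relations n) (s : Fin n → Fin (k + 1) → I) :
    PY R (fun i j => y (s i j)) ↔ (∀ i, Tr C.arc (fun j => z (s i j))) ∧
      Structure.RelMap R (fun i => C.col (fun j => z (s i j))) := by
  let _ : (LBp LB k).Structure G := strB LB C
  have h1 := h.rel (n := n * (k + 1)) (RelB.pull R) (unbl s)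
  rw [← PY_iff] at h1
  have e0 : ∀ {X : Type} (f : I → X), bl (fun i => f (unbl s i)) = fun i j => f (s i j) := by
    intro X f
    funext i j
    exact congrArg f (congrFun (congrFun (bl_unbl s) i) j)
  rw [e0] at h1
  rw [h1]
  have h2 : Structure.RelMap (L := LBp LB k) (n := n * (k + 1)) (RelB.pull R)
      (fun i => z (unbl s i)) ↔ ((∀ i, Tr C.arc (bl (fun i => z (unbl s i)) i)) ∧
        Structure.RelMap R (fun i => C.col (bl (fun i => z (unbl s i)) i))) := Iff.rfl
  rw [e0] at h2
  exact h2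

end

section

variable {L LB : FirstOrder.Language.{0, 0}} [Finite (Σ n, L.Relations n)] {A : Type}
  [L.Structure A] [LB.Structure A] {k : ℕ} {G : Type} {C : CG k A G}

theorem exists_bound (hLB : FinRel LB) {ι : Type} [Finite ι] (N : ι → Type) (m : ℕ) :
    ∃ K : ℕ, 2 ≤ K ∧ 3 * (k + 1) ≤ K ∧ m ≤ K ∧
      (∀ (n : ℕ) (_ : LB.Relations n), 2 * n * (k + 1) ≤ K) ∧
      ∀ i, Nat.card (N i) * (k + 1) ≤ K := by
  have h1 := hLB.2
  obtain ⟨K1, hK1⟩ : ∃ K, ∀ r : Σ n, LB.Relations n, 2 * r.1 * (k + 1) ≤ K := by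
    obtain ⟨K, hK⟩ := (Set.finite_range (fun r : Σ n, LB.Relations n =>
      2 * r.1 * (k + 1))).bddAbove
    exact ⟨K, fun r => hK ⟨r, rfl⟩⟩
  obtain ⟨K2, hK2⟩ : ∃ K, ∀ i, Nat.card (N i) * (k + 1) ≤ K := by
    obtain ⟨K, hK⟩ := (Set.finite_range (fun i => Nat.card (N i) * (k + 1))).bddAbove
    exact ⟨K, fun r => hK ⟨r, rfl⟩⟩
  refine ⟨2 + 3 * (k + 1) + m + K1 + K2, by omega, by omega, by omega, ?_, ?_⟩
  · intro n R
    have : 2 * n * (k + 1) ≤ K1 := hK1 ⟨n, R⟩
    omega
  · intro i
    have := hK2 i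
    omega

theorem finitelyBounded (hLB : FinRel LB) (hB : LB.IsUltrahomogeneous A)
    (hFB : FinitelyBounded LB A) [Nonempty A] [Countable G] (hC : IsGen C (QQ L A k))
    (hR : IsReduct L LB A) : @FinitelyBounded (LBp LB k) G (strB LB C) := by
  classical
  obtain ⟨ι, hι, N, hN, hNs, hfb⟩ := hFB
  have hrel := hLB.1
  obtain ⟨K, hK1, hK2, hK3, hK4, hK5⟩ := exists_bound (k := k) hLB N (sm L A k)
  let _ : (LBp LB k).Structure G := strB LB C
  refine fb_of_local (finRel_LBp hLB k) K ?_
  intro Y hY sY hloc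
  -- facts about `Y`
  have F1 : ∀ a b : Y, AY LB k a b → ¬ AY LB k b a := by
    intro a b h1 h2
    obtain ⟨z, hz⟩ := hloc (Fin 2) inferInstance (by simpa using hK1) ![a, b]
    exact C.asymm _ _ ((T1 hz 0 1).1 h1) ((T1 hz 1 0).1 h2)
  have three : ∀ t : Fin 3 → Fin (k + 1) → Y, ∃ z : Fin 3 → Fin (k + 1) → G,
      (∀ a, Tr (AY LB k) (t a) ↔ Tr C.arc (z a)) ∧
      (∀ a b, SY LB (t a) (t b) ↔ Tr C.arc (z a) ∧ Tr C.arc (z b) ∧ C.col (z a) = C.col (z b)) := by
    intro t
    obtain ⟨z, hz⟩ := hloc (Fin 3 × Fin (k + 1)) inferInstance (by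
      simp only [Nat.card_eq_fintype_card, Fintype.card_prod, Fintype.card_fin]
      exact hK2) (fun q => t q.1 q.2)
    refine ⟨fun a j => z (a, j), fun a => ?_, fun a b => ?_⟩
    · exact forall_congr' fun i => forall_congr' fun j => imp_congr_right fun _ =>
        T1 hz (a, i) (a, j)
    · exact T2 hz (fun j => (a, j)) (fun j => (b, j))
  have S_tr : ∀ t t' : Fin (k + 1) → Y, SY LB t t' → Tr (AY LB k) t ∧ Tr (AY LB k) t' := by
    intro t t' h
    obtain ⟨z, h1, h2⟩ := three ![t, t', t]
    have h3 := (h2 0 1).1 h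
    exact ⟨(h1 0).2 h3.1, (h1 1).2 h3.2.1⟩
  have S_refl : ∀ t : Fin (k + 1) → Y, Tr (AY LB k) t → SY LB t t := by
    intro t h
    obtain ⟨z, h1, h2⟩ := three ![t, t, t]
    exact (h2 0 0).2 ⟨(h1 0).1 h, (h1 0).1 h, rfl⟩
  have S_symm : ∀ t t' : Fin (k + 1) → Y, SY LB t t' → SY LB t' t := by
    intro t t' h
    obtain ⟨z, h1, h2⟩ := three ![t, t', t]
    have h3 := (h2 0 1).1 h
    exact (h2 1 0).2 ⟨h3.2.1, h3.1, h3.2.2.symm⟩
  have S_trans : ∀ t t' t'' : Fin (k + 1) → Y, SY LB t t' → SY LB t' t'' → SY LB t t'' := by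
    intro t t' t'' h h'
    obtain ⟨z, h1, h2⟩ := three ![t, t', t'']
    have h3 := (h2 0 1).1 h
    have h4 := (h2 1 2).1 h'
    exact (h2 0 2).2 ⟨h3.1, h4.2.1, h3.2.2.trans h4.2.2⟩
  have pulls : ∀ {n : ℕ} (R : LB.Relations n) (t : Fin 2 → Fin n → Fin (k + 1) → Y),
      ∃ z : Fin 2 → Fin n → Fin (k + 1) → G,
      (∀ a i, Tr (AY LB k) (t a i) ↔ Tr C.arc (z a i)) ∧
      (∀ i, SY LB (t 0 i) (t 1 i) ↔ Tr C.arc (z 0 i) ∧ Tr C.arc (z 1 i) ∧
        C.col (z 0 i) = C.col (z 1 i)) ∧
      (∀ a, PY R (t a) ↔ (∀ i, Tr C.arc (z a i)) ∧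
        Structure.RelMap R (fun i => C.col (z a i))) := by
    intro n R t
    obtain ⟨z, hz⟩ := hloc ((Fin 2 × Fin n) × Fin (k + 1)) inferInstance (by
      simp only [Nat.card_eq_fintype_card, Fintype.card_prod, Fintype.card_fin]
      exact hK4 n R) (fun q => t q.1.1 q.1.2 q.2)
    refine ⟨fun a i j => z ((a, i), j), fun a i => ?_, fun i => ?_, fun a => ?_⟩
    · exact forall_congr' fun j => forall_congr' fun j' => imp_congr_right fun _ =>
        T1 hz ((a, i), j) ((a, i), j')
    · exact T2 hz (fun j => ((0, i), j)) (fun j => ((1, i), j))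
    · exact T3 hz R (fun i j => ((a, i), j))
  have P_tr : ∀ {n : ℕ} (R : LB.Relations n) (t : Fin n → Fin (k + 1) → Y), PY R t →
      ∀ i, Tr (AY LB k) (t i) := by
    intro n R t h i
    obtain ⟨z, h1, -, h3⟩ := pulls R ![t, t]
    exact (h1 0 i).2 (((h3 0).1 h).1 i)
  have P_inv : ∀ {n : ℕ} (R : LB.Relations n) (t t' : Fin n → Fin (k + 1) → Y),
      (∀ i, SY LB (t i) (t' i)) → PY R t → PY R t' := by
    intro n R t t' h hP
    obtain ⟨z, h1, h2, h3⟩ := pulls R ![t, t']
    have h4 := fun i => (h2 i).1 (h i)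
    refine (h3 1).2 ⟨fun i => (h4 i).2.1, ?_⟩
    have h5 := ((h3 0).1 hP).2
    have e : (fun i => C.col (z 1 i)) = fun i => C.col (z 0 i) :=
      funext fun i => (h4 i).2.2.symm
    rw [e]
    exact h5
  -- the quotient
  let T := {t : Fin (k + 1) → Y // Tr (AY LB k) t}
  let st : Setoid T :=
    { r := fun t t' => SY LB t.1 t'.1
      iseqv := ⟨fun t => S_refl _ t.2, fun h => S_symm _ _ h, fun h h' => S_trans _ _ _ h h'⟩ }
  let Qt := Quotient st
  have hout : ∀ t : T, SY LB (Quotient.out (Quotient.mk st t)).1 t.1 := fun t =>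
    Quotient.exact (Quotient.out_eq (Quotient.mk st t))
  let sQ : LB.Structure Qt :=
    { funMap := fun f => isEmptyElim f
      RelMap := fun {n} R q => PY R (fun i => (Quotient.out (q i)).1) }
  have hTfin : Finite T := inferInstance
  have hQfin : Finite Qt := inferInstance
  have hQemb : Nonempty (LB.Embedding Qt A) := by
    rw [hfb]
    intro i
    refine ⟨fun ε => ?_⟩
    have := hN i
    obtain ⟨z, hz⟩ := hloc (N i × Fin (k + 1)) inferInstance (by
      have h1 : Nat.card (N i × Fin (k + 1)) = Nat.card (N i) * (k + 1) := by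
        rw [Nat.card_prod, Nat.card_eq_fintype_card (α := Fin (k + 1)), Fintype.card_fin]
      rw [h1]
      exact hK5 i) (fun q => (Quotient.out (ε q.1)).1 q.2)
    have hztr : ∀ a, Tr C.arc (fun j => z (a, j)) := fun a i j hij =>
      (T1 hz (a, i) (a, j)).1 ((Quotient.out (ε a)).2 i j hij)
    have hNi : Nonempty (LB.Embedding (N i) A) := by
      refine ⟨{ toFun := fun a => C.col (fun j => z (a, j))
                inj' := ?_
                map_fun' := fun f => isEmptyElim f
                map_rel' := ?_ }⟩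
      · intro a b hab
        have h1 := (T2 hz (fun j => (a, j)) (fun j => (b, j))).2 ⟨hztr a, hztr b, hab⟩
        apply ε.injective
        rw [← Quotient.out_eq (ε a), ← Quotient.out_eq (ε b)]
        exact Quotient.sound h1
      · intro n R x
        have h1 := T3 hz R (fun i j => (x i, j))
        have h2 : (∀ i, Tr C.arc (fun j => z (x i, j))) := fun i => hztr (x i)
        have h3 := ε.map_rel R x
        constructor
        · intro h4
          exact h3.1 (h1.2 ⟨h2, h4⟩)
        · intro h4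
          exact (h1.1 (h3.2 h4)).2
    exact ((hfb (N i)).1 hNi i).false (FirstOrder.Language.Embedding.refl LB (N i))
  obtain ⟨β⟩ := hQemb
  let D : CG k A Y :=
    { arc := AY LB k
      asymm := F1
      col := fun t => if h : Tr (AY LB k) t then β (Quotient.mk st ⟨t, h⟩) else
        Classical.arbitrary A }
  have hcol : ∀ t (h : Tr (AY LB k) t), D.col t = β (Quotient.mk st ⟨t, h⟩) :=
    fun t h => dif_pos h
  -- the structure on `Y` is the one given by `D`
  have hstr : ∀ {n : ℕ} (R : (LBp LB k).Relations n) (x : Fin n → Y),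
      Structure.RelMap R x ↔ (strB LB D).RelMap R x := by
    intro n R x
    cases R with
    | arc => exact (AY_iff x).symm
    | same =>
      show Structure.RelMap (L := LBp LB k) (n := 2 * (k + 1)) RelB.same x ↔ (_ ∧ _ ∧ _)
      rw [← SY_iff]
      constructor
      · intro h
        obtain ⟨h1, h2⟩ := S_tr _ _ h
        refine ⟨h1, h2, ?_⟩
        rw [hcol _ h1, hcol _ h2]
        congr 1
        exact Quotient.sound h
      · rintro ⟨h1, h2, h3⟩
        rw [hcol _ h1, hcol _ h2] at h3
        exact Quotient.exact (β.injective h3)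
    | pull R =>
      show Structure.RelMap (L := LBp LB k) (RelB.pull R) x ↔ (_ ∧ _)
      rw [← PY_iff]
      have key : ∀ (h : ∀ i, Tr (AY LB k) (bl x i)),
          PY R (bl x) ↔ Structure.RelMap R (fun i => D.col (bl x i)) := by
        intro h
        have e : (fun i => D.col (bl x i)) = fun i => β (Quotient.mk st ⟨bl x i, h i⟩) :=
          funext fun i => hcol _ (h i)
        rw [e]
        have h1 := β.map_rel R (fun i => Quotient.mk st ⟨bl x i, h i⟩)
        constructor
        · intro h2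
          refine h1.2 ?_
          exact P_inv R _ _ (fun i => S_symm _ _ (hout ⟨bl x i, h i⟩)) h2
        · intro h2
          exact P_inv R _ _ (fun i => hout ⟨bl x i, h i⟩) (h1.1 h2)
      constructor
      · intro h
        have h1 := P_tr R _ h
        exact ⟨h1, (key h1).1 h⟩
      · rintro ⟨h1, h2⟩
        exact (key h1).2 h2
  have hgood : D.Good (QQ L A k) := by
    intro x hx
    obtain ⟨z, hz⟩ := hloc (Fin (sm L A k)) inferInstance (by simpa using hK3) x
    have hz' : @IsoT (LBp LB k) Y G (strB LB D) (strB LB C) _ x z := by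
      refine @IsoT.mk (LBp LB k) Y G (strB LB D) (strB LB C) _ x z hz.eq ?_
      intro n R t
      exact (hstr R _).symm.trans (hz.rel R t)
    obtain ⟨g, hg⟩ := same_of_isoT hB hz'
    have h1 : Tr C.arc z := fun i j hij => (hg.arc i j).1 (hx i j hij)
    have h2 := hC.good z h1
    have h3 : QQ L A k (fun p => g (D.col (fun i => x (p i)))) := by
      refine QQ_loc L A k _ _ ?_ h2
      intro p hp
      exact hg.col p (hx.comp hp)
    have h4 := QQ_aut hR g.symm _ h3
    have e : (fun p : Fin (k + 1) → Fin (sm L A k) =>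
        g.symm (g (D.col (fun i => x (p i))))) = fun p => D.col (fun i => x (p i)) :=
      funext fun p => g.symm_apply_apply _
    rw [e] at h4
    exact h4
  obtain ⟨e, he⟩ := hC.embed' D hgood
  have h5 := isoT_of (LB := LB) (β := id) Function.injective_id (fun R x => Iff.rfl) he
  refine ⟨{ toFun := e
            inj' := ?_
            map_fun' := fun f => isEmptyElim f
            map_rel' := ?_ }⟩
  · intro a b hab
    exact (he.eq a b).2 hab
  · intro n R x
    have h6 := @IsoT.rel (LBp LB k) Y G (strB LB D) (strB LB C) _ _ _ h5 n R x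
    exact h6.symm.trans (hstr R x).symm

end

end Pool.Agent.H17.DG
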