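import Mathlib
import Pool.Agent.H17.DG.Csp

set_option autoImplicit false

/-!
# Gluing copies of a finite structure along a triangle-free oriented graph
-/

namespace Pool.Agent.H17.DG

/-- first pattern -/
def al : Fin 6 → Fin 3 := ![0, 1, 2, 0, 1, 2]
/-- second pattern -/
def be : Fin 6 → Fin 3 := ![1, 2, 0, 2, 0, 1]
/-- both patterns -/
def pat : Fin 2 → Fin 6 → Fin 3 := ![al, be]

theorem pat_surj (a : Fin 2) (x : Fin 3) : ∃ c, pat a c = x := by
  revert a x
  decide

theorem al_ne_be (c : Fin 6) : al c ≠ be c := by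
  revert c
  decide

theorem al_be_surj (a b : Fin 3) (h : a ≠ b) : ∃ c, al c = a ∧ be c = b := by
  revert a b
  decide

/-- A function is constant. -/
def Cst {G : Type} (r : Fin 3 → G) : Prop := ∀ a b, r a = r b

theorem pat_eq {G : Type} {r r' : Fin 3 → G} {a : Fin 2}
    (h : (fun c => r (pat a c)) = fun c => r' (pat a c)) : r = r' := by
  funext x
  obtain ⟨c, rfl⟩ := pat_surj a x
  exact congrFun h c

theorem pat_ne {G : Type} {r r' : Fin 3 → G}
    (h : (fun c => r (pat 0 c)) = fun c => r' (pat 1 c)) : r = r' ∧ Cst r := by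
  have h0 : r 0 = r' 1 := congrFun h 0
  have h1 : r 1 = r' 2 := congrFun h 1
  have h2 : r 2 = r' 0 := congrFun h 2
  have h3 : r 0 = r' 2 := congrFun h 3
  have h4 : r 1 = r' 0 := congrFun h 4
  have h5 : r 2 = r' 1 := congrFun h 5
  have e1 : r 0 = r 1 := h3.trans h1.symm
  have e2 : r 1 = r 2 := h4.trans h2.symm
  have hc : ∀ a, r a = r 0 := by
    intro a
    fin_cases a
    · rfl
    · exact e1.symm
    · exact (e1.trans e2).symm
  refine ⟨?_, fun a b => (hc a).trans (hc b).symm⟩
  funext a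
  rw [hc a]
  fin_cases a
  · exact e1.trans h4
  · exact h0
  · exact h3

theorem cst_pat {G : Type} {r : Fin 3 → G} (h : Cst r) (a b : Fin 2) :
    (fun c => r (pat a c)) = fun c => r (pat b c) := funext fun _ => h _ _

section

variable {k m n l : ℕ} {A G V : Type} (C : CG k A G)
  (ρ : (Fin 2 × Fin n) ⊕ Fin l → Fin 6 → G) (π : Fin n → Fin 3 → G)

/-- arcs between rows -/
def RA (r r' : Fin 6 → G) : Prop := ∀ c, C.arc (r c) (r' c)

/-- the points of the glued structure -/
abbrev Gam (V G : Type) : Type := (Option V × (Fin 3 → G)) ⊕ ((V × V) × (Fin 6 → G))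

open Classical in
/-- the shared points -/
noncomputable def pt (v : V) (r : Fin 3 → G) : Option V × (Fin 3 → G) :=
  if Cst r then (none, r) else (some v, r)

open Classical in
/-- the embedding of the piece of the arc `e` -/
noncomputable def emb (e : Fin 2 → V) (r : Fin 6 → G) : Gam V G :=
  if ∃ i, r = fun c => π i (pat 0 c) then Sum.inl (pt (e 0) ![r 0, r 1, r 2])
  else if ∃ i, r = fun c => π i (pat 1 c) then Sum.inl (pt (e 1) ![r 2, r 0, r 1])
  else Sum.inr ((e 0, e 1), r)

theorem back0 (r : Fin 3 → G) : ![r (pat 0 0), r (pat 0 1), r (pat 0 2)] = r := by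
  funext a
  fin_cases a <;> rfl

theorem back1 (r : Fin 3 → G) : ![r (pat 1 2), r (pat 1 0), r (pat 1 1)] = r := by
  funext a
  fin_cases a <;> rfl

theorem emb_pat (e : Fin 2 → V) (a : Fin 2) (i : Fin n) :
    emb π e (fun c => π i (pat a c)) = Sum.inl (pt (e a) (π i)) := by
  have key0 : emb π e (fun c => π i (pat 0 c)) = Sum.inl (pt (e 0) (π i)) := by
    unfold emb
    rw [if_pos ⟨i, rfl⟩, back0]
  match a with
  | 0 => exact key0
  | 1 =>
    by_cases h : ∃ j, (fun c => π i (pat 1 c)) = fun c => π j (pat 0 c)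
    · obtain ⟨j, hj⟩ := h
      obtain ⟨h1, h2⟩ := pat_ne hj.symm
      rw [h1] at h2
      rw [cst_pat h2 1 0, key0]
      unfold pt
      rw [if_pos h2, if_pos h2]
    · unfold emb
      rw [if_neg h, if_pos ⟨i, rfl⟩, back1]

/-- Every point of a piece is shared or interior. -/
theorem emb_cases (e : Fin 2 → V) (r : Fin 6 → G) :
    (∃ a i, r = (fun c => π i (pat a c)) ∧ emb π e r = Sum.inl (pt (e a) (π i))) ∨
      emb π e r = Sum.inr ((e 0, e 1), r) := by
  by_cases h0 : ∃ i, r = fun c => π i (pat 0 c)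
  · obtain ⟨i, rfl⟩ := h0
    exact Or.inl ⟨0, i, rfl, emb_pat π e 0 i⟩
  · by_cases h1 : ∃ i, r = fun c => π i (pat 1 c)
    · obtain ⟨i, rfl⟩ := h1
      exact Or.inl ⟨1, i, rfl, emb_pat π e 1 i⟩
    · right
      unfold emb
      rw [if_neg h0, if_neg h1]

theorem pt_eq {v w : V} {r r' : Fin 3 → G} (h : pt v r = pt w r') : r = r' ∧ (Cst r ∨ v = w) := by
  unfold pt at h
  split_ifs at h with h1 h2 h3
  · have := (Prod.mk.inj h).2
    exact ⟨this, Or.inl h1⟩
  · have := (Prod.mk.inj h).1
    exact absurd this (by simp)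
  · have := (Prod.mk.inj h).1
    exact absurd this (by simp)
  · exact ⟨(Prod.mk.inj h).2, Or.inr (Option.some.inj (Prod.mk.inj h).1)⟩

theorem pt_cst {v w : V} {r : Fin 3 → G} (h : Cst r) : pt v r = pt w r := by
  unfold pt
  rw [if_pos h, if_pos h]

theorem emb_inj {e : Fin 2 → V} (he : e 0 ≠ e 1) {r r' : Fin 6 → G}
    (h : emb π e r = emb π e r') : r = r' := by
  rcases emb_cases π e r with ⟨a, i, h1, h2⟩ | h2 <;>
  rcases emb_cases π e r' with ⟨b, j, h3, h4⟩ | h4
  · rw [h2, h4] at h
    obtain ⟨h5, h6⟩ := pt_eq (Sum.inl.inj h)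
    rw [h1, h3, h5]
    rcases h6 with h6 | h6
    · rw [h5] at h6
      exact cst_pat h6 _ _
    · have : a = b := by
        match a, b with
        | 0, 0 => rfl
        | 0, 1 => exact absurd h6 he
        | 1, 0 => exact absurd h6.symm he
        | 1, 1 => rfl
      rw [this]
  · rw [h2, h4] at h
    exact absurd h (by simp)
  · rw [h2, h4] at h
    exact absurd h (by simp)
  · rw [h2, h4] at h
    exact (Prod.mk.inj (Sum.inr.inj h)).2

/-- Points shared by two different pieces. -/
theorem shared {Ar : V → V → Prop} (hO : ∀ v w, Ar v w → ¬ Ar w v) {e f : Fin 2 → V}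
    (he : Ar (e 0) (e 1)) (hf : Ar (f 0) (f 1)) (hef : e ≠ f) {N : ℕ} (ye yf : Fin N → Fin 6 → G)
    (h : ∀ j, emb π e (ye j) = emb π f (yf j)) :
    ∃ (idx : Fin N → Fin n) (a b : Fin 2), (∀ j, ye j = fun c => π (idx j) (pat a c)) ∧
      (∀ j, yf j = fun c => π (idx j) (pat b c)) ∧ (e a = f b ∨ ∀ j, Cst (π (idx j))) := by
  have hne : ∀ {e : Fin 2 → V}, Ar (e 0) (e 1) → e 0 ≠ e 1 := by
    intro e he h
    rw [h] at he
    exact hO _ _ he he
  have h1 : ∀ j, ∃ a b i, (ye j = fun c => π i (pat a c)) ∧ (yf j = fun c => π i (pat b c)) ∧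
      (Cst (π i) ∨ e a = f b) := by
    intro j
    rcases emb_cases π e (ye j) with ⟨a, i, h1, h2⟩ | h2 <;>
    rcases emb_cases π f (yf j) with ⟨b, i', h3, h4⟩ | h4
    · have h5 := h j
      rw [h2, h4] at h5
      obtain ⟨h6, h7⟩ := pt_eq (Sum.inl.inj h5)
      exact ⟨a, b, i, h1, by rw [h3, h6], h7⟩
    · have h5 := h j
      rw [h2, h4] at h5
      exact absurd h5 (by simp)
    · have h5 := h j
      rw [h2, h4] at h5
      exact absurd h5 (by simp)
    · have h5 := h j
      rw [h2, h4] at h5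
      have h6 := Prod.mk.inj (Prod.mk.inj (Sum.inr.inj h5)).1
      exfalso
      apply hef
      funext x
      match x with
      | 0 => exact h6.1
      | 1 => exact h6.2
  choose a b i ha hb hab using h1
  by_cases hall : ∀ j, Cst (π (i j))
  · refine ⟨i, 0, 0, fun j => ?_, fun j => ?_, Or.inr hall⟩
    · rw [ha j]
      exact cst_pat (hall j) _ _
    · rw [hb j]
      exact cst_pat (hall j) _ _
  · push Not at hall
    obtain ⟨j0, hj0⟩ := hall
    have h0 : e (a j0) = f (b j0) := (hab j0).resolve_left hj0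
    have hsame : ∀ j, ¬ Cst (π (i j)) → a j = a j0 ∧ b j = b j0 := by
      intro j hj
      have h1 : e (a j) = f (b j) := (hab j).resolve_left hj
      have he' := hne he
      have hf' := hne hf
      generalize a j = a1 at h1 ⊢
      generalize a j0 = a0 at h0 ⊢
      generalize b j = b1 at h1 ⊢
      generalize b j0 = b0 at h0 ⊢
      match a1, a0, b1, b0 with
      | 0, 0, 0, 0 => exact ⟨rfl, rfl⟩
      | 0, 0, 0, 1 => exact absurd (h1.symm.trans h0) hf'
      | 0, 0, 1, 0 => exact absurd (h0.symm.trans h1) hf'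
      | 0, 0, 1, 1 => exact ⟨rfl, rfl⟩
      | 1, 1, 0, 0 => exact ⟨rfl, rfl⟩
      | 1, 1, 0, 1 => exact absurd (h1.symm.trans h0) hf'
      | 1, 1, 1, 0 => exact absurd (h0.symm.trans h1) hf'
      | 1, 1, 1, 1 => exact ⟨rfl, rfl⟩
      | 0, 1, 0, 0 => exact absurd (h1.trans h0.symm) he'
      | 0, 1, 1, 1 => exact absurd (h1.trans h0.symm) he'
      | 1, 0, 0, 0 => exact absurd (h0.trans h1.symm) he'
      | 1, 0, 1, 1 => exact absurd (h0.trans h1.symm) he'
      | 0, 1, 0, 1 =>
        exfalso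
        apply hef
        funext x
        match x with
        | 0 => exact h1
        | 1 => exact h0
      | 0, 1, 1, 0 =>
        exfalso
        rw [h1, h0] at he
        exact hO _ _ he hf
      | 1, 0, 0, 1 =>
        exfalso
        rw [h1, h0] at he
        exact hO _ _ he hf
      | 1, 0, 1, 0 =>
        exfalso
        apply hef
        funext x
        match x with
        | 0 => exact h0
        | 1 => exact h1
    refine ⟨i, a j0, b j0, fun j => ?_, fun j => ?_, Or.inl h0⟩
    · rw [ha j]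
      by_cases hj : Cst (π (i j))
      · exact cst_pat hj _ _
      · rw [(hsame j hj).1]
    · rw [hb j]
      by_cases hj : Cst (π (i j))
      · exact cst_pat hj _ _
      · rw [(hsame j hj).2]

end

end Pool.Agent.H17.DG
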