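import Mathlib
import Pool.Agent.H74.Stub.PP

set_option autoImplicit false

/-!
# pp-constructions can be composed
-/

namespace Pool.Agent.H17.DG

open FirstOrder FirstOrder.Language Pool.Agent.H74.Stub Set

theorem holds_hom {L : FirstOrder.Language.{0, 0}} {M N X : Type} [L.Structure M] [L.Structure N]
    (f : L.Hom M N) (v : X → M) (a : Atom L X) (h : a.Holds v) : a.Holds (fun x => f (v x)) := by
  cases a with
  | bot => exact h
  | eq x y => exact congrArg f h
  | rel R t => exact f.map_rel R _ h

theorem pp_power_list {L : FirstOrder.Language.{0, 0}} {M : Type} [L.Structure M]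
    {L' : FirstOrder.Language.{0, 0}} {n : ℕ} (P : L'.Structure (Fin n → M))
    (hP : ∀ (k : ℕ) (R : L'.Relations k),
      PPDefinable L {w : Fin k × Fin n → M | P.RelMap R (fun i j => w (i, j))})
    {X : Type} (l : List (Atom L' X)) :
    PPDefinable L {v : X × Fin n → M |
      ∀ a ∈ l, @Atom.Holds L' X (Fin n → M) P (fun x j => v (x, j)) a} := by
  induction l with
  | nil =>
    convert pp_univ (L := L) (M := M) (I := X × Fin n) using 1
    ext v
    simp
  | cons a l ih =>
    have h1 : PPDefinable L {v : X × Fin n → M |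
        @Atom.Holds L' X (Fin n → M) P (fun x j => v (x, j)) a} := by
      cases a with
      | bot =>
        exact pp_empty (L := L) (M := M) (I := X × Fin n)
      | eq x y =>
        convert pp_iInter (L := L) (fun j : Fin n =>
          pp_eq (L := L) (M := M) (I := X × Fin n) (x, j) (y, j)) using 1
        ext v
        simp only [mem_ofPred_eq, mem_iInter]
        exact ⟨fun h j => congrFun h j, fun h => funext h⟩
      | rel R t =>
        exact pp_comap (fun p : _ × Fin n => (t p.1, p.2)) (hP _ R)
    convert pp_inter h1 ih using 1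
    ext v
    simp only [List.mem_cons, mem_ofPred_eq, mem_inter_iff, forall_eq_or_imp]

theorem ppConstructs_trans {L L' L'' : FirstOrder.Language.{0, 0}} [L''.IsRelational]
    {M N P : Type} [L.Structure M] [L'.Structure N] [L''.Structure P]
    (h1 : PPConstructs L M L' N) (h2 : PPConstructs L' N L'' P) : PPConstructs L M L'' P := by
  obtain ⟨n, S1, hn, hpp1, ⟨f1⟩, ⟨g1⟩⟩ := h1
  obtain ⟨d, S2, hd, hpp2, ⟨f2⟩, ⟨g2⟩⟩ := h2
  choose mR lR hlR using hpp2
  let S3 : L''.Structure (Fin (d * n) → M) :=
    { funMap := fun f => isEmptyElim f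
      RelMap := fun {r} R w => ∃ y : Fin (mR r R) → (Fin n → M), ∀ a ∈ lR r R,
        @Atom.Holds L' _ (Fin n → M) S1
          (Sum.elim (fun p : Fin r × Fin d => fun j => w p.1 (finProdFinEquiv (p.2, j))) y) a }
  refine ⟨d * n, S3, by positivity, ?_, ?_, ?_⟩
  · intro r R
    have h3 := pp_power_list S1 hpp1 (lR r R)
    have h4 := pp_comap (J := (Fin r × Fin (d * n)) ⊕ (Fin (mR r R) × Fin n))
      (fun p : ((Fin r × Fin d) ⊕ Fin (mR r R)) × Fin n =>
        Sum.elim (fun q : Fin r × Fin d =>
          (Sum.inl (q.1, finProdFinEquiv (q.2, p.2)) :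
            (Fin r × Fin (d * n)) ⊕ (Fin (mR r R) × Fin n)))
          (fun q => Sum.inr (q, p.2)) p.1) h3
    have h5 := pp_exists h4
    convert h5 using 1
    ext w
    simp only [mem_ofPred_eq]
    constructor
    · rintro ⟨y, hy⟩
      refine ⟨fun p => y p.1 p.2, fun a ha => ?_⟩
      convert hy a ha using 1
      funext p j
      rcases p with q | q <;> rfl
    · rintro ⟨y, hy⟩
      refine ⟨fun q j => y (q, j), fun a ha => ?_⟩
      convert hy a ha using 1
      funext p j
      rcases p with q | q <;> rfl
  · refine ⟨{ toFun := fun w => f2 (fun j => f1 (fun a => w (finProdFinEquiv (j, a))))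
              map_fun' := fun f => isEmptyElim f
              map_rel' := ?_ }⟩
    rintro r R w ⟨y, hy⟩
    refine f2.map_rel R (fun i j => f1 (fun a => w i (finProdFinEquiv (j, a)))) ?_
    have h3 := (hlR r R (fun p => f1 (fun a => w p.1 (finProdFinEquiv (p.2, a))))).2
      ⟨fun q => f1 (y q), fun a ha => by
        have := holds_hom f1 _ a (hy a ha)
        convert this using 1
        funext p
        rcases p with q | q <;> rfl⟩
    exact h3
  · refine ⟨{ toFun := fun p j => g1 (g2 p (finProdFinEquiv.symm j).1) (finProdFinEquiv.symm j).2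
              map_fun' := fun f => isEmptyElim f
              map_rel' := ?_ }⟩
    intro r R x hx
    have h3 : (fun p : Fin r × Fin d => g2 (x p.1) p.2) ∈
        {w : Fin r × Fin d → N | S2.RelMap R fun i j => w (i, j)} := g2.map_rel R _ hx
    obtain ⟨y, hy⟩ := (hlR r R _).1 h3
    refine ⟨fun q => g1 (y q), fun a ha => ?_⟩
    have := holds_hom g1 _ a (hy a ha)
    convert this using 1
    funext p
    rcases p with q | q
    · funext j
      show g1 (g2 (x q.1) (finProdFinEquiv.symm (finProdFinEquiv (q.2, j))).1)
        (finProdFinEquiv.symm (finProdFinEquiv (q.2, j))).2 = g1 (g2 (x q.1) q.2) j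
      rw [Equiv.symm_apply_apply]
    · rfl

end Pool.Agent.H17.DG
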