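import Mathlib
import Pool.Agent.H17.DG.BF

set_option autoImplicit false

/-!
# Attaching a transitive tournament
-/

namespace Pool.Agent.H17.DG

section

variable {k m : ℕ} {A G : Type} {C : CG k A G} {Q : ((Fin (k + 1) → Fin m) → A) → Prop}

theorem Tr.injective {X : Type} (C : CG k A X) {n : ℕ} {x : Fin n → X} (h : Tr C.arc x) :
    Function.Injective x := by
  intro i j hij
  rcases lt_trichotomy i j with h1 | h1 | h1
  · have := h i j h1
    rw [hij] at this
    exact absurd this (C.irrefl _)
  · exact h1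
  · have := h j i h1
    rw [hij] at this
    exact absurd this (C.irrefl _)

theorem strictMono_eq_id {y : Fin m → Fin m} (hy : StrictMono y) : y = id := by
  rw [← hy.range_inj strictMono_id, Set.range_id]
  exact (Finite.surjective_of_injective hy.injective).range_eq

/-- Attaching a transitive tournament with `m` vertices along the positions in `S`. -/
theorem IsGen.attach (hC : IsGen C Q) [Countable G] (hQ : Loc Q) (hm : 2 ≤ m) (S : Set (Fin m))
    (u : Fin m → G) (hu : ∀ i ∈ S, ∀ j ∈ S, i < j → C.arc (u i) (u j))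
    (c : (Fin (k + 1) → Fin m) → A) (hc : Q c)
    (hcol : ∀ p : Fin (k + 1) → Fin m, StrictMono p → (∀ i, p i ∈ S) →
      C.col (fun i => u (p i)) = c p) :
    ∃ w : Fin m → G, Tr C.arc w ∧ (∀ i ∈ S, w i = u i) ∧
      ∀ p : Fin (k + 1) → Fin m, StrictMono p → C.col (fun i => w (p i)) = c p := by
  classical
  have hne : Nonempty (Fin m) := ⟨⟨0, by omega⟩⟩
  let w0 : Fin m → G ⊕ Fin m := fun i => if i ∈ S then Sum.inl (u i) else Sum.inr i
  have w0S : ∀ i ∈ S, w0 i = Sum.inl (u i) := fun i hi => if_pos hi
  have w0N : ∀ i, i ∉ S → w0 i = Sum.inr i := fun i hi => if_neg hi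
  have huinj : ∀ i ∈ S, ∀ j ∈ S, u i = u j → i = j := by
    intro i hi j hj hij
    rcases lt_trichotomy i j with h1 | h1 | h1
    · have := hu i hi j hj h1
      rw [hij] at this
      exact absurd this (C.irrefl _)
    · exact h1
    · have := hu j hj i hi h1
      rw [hij] at this
      exact absurd this (C.irrefl _)
  have hw0 : Function.Injective w0 := by
    intro i j hij
    by_cases hi : i ∈ S <;> by_cases hj : j ∈ S
    · rw [w0S i hi, w0S j hj] at hij
      exact huinj i hi j hj (Sum.inl.inj hij)
    · rw [w0S i hi, w0N j hj] at hij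
      exact absurd hij (by simp)
    · rw [w0N i hi, w0S j hj] at hij
      exact absurd hij (by simp)
    · rw [w0N i hi, w0N j hj] at hij
      exact Sum.inr.inj hij
  have hmem : ∀ i g, w0 i = Sum.inl g → i ∈ S ∧ u i = g := by
    intro i g h
    by_cases hi : i ∈ S
    · rw [w0S i hi] at h
      exact ⟨hi, Sum.inl.inj h⟩
    · rw [w0N i hi] at h
      exact absurd h (by simp)
  let ar : G ⊕ Fin m → G ⊕ Fin m → Prop := fun a b =>
    (∃ g g', a = Sum.inl g ∧ b = Sum.inl g' ∧ C.arc g g') ∨ (∃ i j, i < j ∧ a = w0 i ∧ b = w0 j)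
  have ar1 : ∀ g g', ar (Sum.inl g) (Sum.inl g') ↔ C.arc g g' := by
    intro g g'
    constructor
    · rintro (⟨g1, g1', h1, h2, h3⟩ | ⟨i, j, h1, h2, h3⟩)
      · rw [Sum.inl.inj h1, Sum.inl.inj h2]
        exact h3
      · obtain ⟨h4, h5⟩ := hmem i g h2.symm
        obtain ⟨h6, h7⟩ := hmem j g' h3.symm
        rw [← h5, ← h7]
        exact hu i h4 j h6 h1
    · intro h
      exact Or.inl ⟨g, g', rfl, rfl, h⟩
  have ar2 : ∀ i j, ar (w0 i) (w0 j) ↔ i < j := by
    intro i j
    constructor
    · rintro (⟨g1, g1', h1, h2, h3⟩ | ⟨i', j', h1, h2, h3⟩)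
      · obtain ⟨h4, h5⟩ := hmem i _ h1
        obtain ⟨h6, h7⟩ := hmem j _ h2
        rcases lt_trichotomy i j with h8 | h8 | h8
        · exact h8
        · exfalso
          apply C.irrefl g1
          have : g1 = g1' := by rw [← h5, ← h7, h8]
          rw [← this] at h3
          exact h3
        · exfalso
          have := hu j h6 i h4 h8
          rw [h5, h7] at this
          exact C.asymm _ _ h3 this
      · rw [hw0 h2, hw0 h3]
        exact h1
    · intro h
      exact Or.inr ⟨i, j, h, rfl, rfl⟩
  have ar3 : ∀ a b, ar a b → ((∃ g g', a = Sum.inl g ∧ b = Sum.inl g')) ∨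
      ((∃ i, a = w0 i) ∧ ∃ j, b = w0 j) := by
    rintro a b (⟨g1, g1', h1, h2, h3⟩ | ⟨i', j', h1, h2, h3⟩)
    · exact Or.inl ⟨g1, g1', h1, h2⟩
    · exact Or.inr ⟨⟨i', h2⟩, ⟨j', h3⟩⟩
  let Y : CG k A (G ⊕ Fin m) :=
    { arc := ar
      asymm := by
        intro a b hab hba
        rcases ar3 a b hab with ⟨g, g', rfl, rfl⟩ | ⟨⟨i, rfl⟩, ⟨j, rfl⟩⟩
        · exact C.asymm _ _ ((ar1 _ _).1 hab) ((ar1 _ _).1 hba)
        · exact lt_asymm ((ar2 _ _).1 hab) ((ar2 _ _).1 hba)
      col := fun t => if h : ∃ t' : Fin (k + 1) → G, t = fun i => Sum.inl (t' i) then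
          C.col h.choose else c (fun i => Function.invFun w0 (t i)) }
  have colL : ∀ t : Fin (k + 1) → G, Y.col (fun i => Sum.inl (t i)) = C.col t := by
    intro t
    have h : ∃ t' : Fin (k + 1) → G,
        (fun i => (Sum.inl (t i) : G ⊕ Fin m)) = fun i => Sum.inl (t' i) := ⟨t, rfl⟩
    have h1 : Y.col (fun i => Sum.inl (t i)) = C.col h.choose := dif_pos h
    rw [h1]
    congr 1
    funext i
    exact (Sum.inl.inj (congrFun h.choose_spec i)).symm
  have colw : ∀ p : Fin (k + 1) → Fin m, StrictMono p → Y.col (fun i => w0 (p i)) = c p := by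
    intro p hp
    by_cases h : ∀ i, p i ∈ S
    · have h1 : (fun i => w0 (p i)) = fun i => Sum.inl (u (p i)) :=
        funext fun i => w0S _ (h i)
      rw [h1, colL]
      exact hcol p hp h
    · have h1 : ¬ ∃ t' : Fin (k + 1) → G, (fun i => w0 (p i)) = fun i => Sum.inl (t' i) := by
        rintro ⟨t', ht'⟩
        exact h fun i => (hmem _ _ (congrFun ht' i)).1
      have h2 : Y.col (fun i => w0 (p i)) = c (fun i => Function.invFun w0 (w0 (p i))) := dif_neg h1
      rw [h2]
      congr 1
      funext i
      exact Function.leftInverse_invFun hw0 _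
  have hgood : ∀ x : Fin m → G ⊕ Fin m, Tr Y.arc x → Q (fun p => id (Y.col (fun i => x (p i)))) := by
    intro x hx
    by_cases h : ∃ i0 j0, x i0 = Sum.inr j0
    · obtain ⟨i0, j0, h0⟩ := h
      have hadj : ∀ i, i ≠ i0 → (∃ j, x i = w0 j) ∧ ∃ j, x i0 = w0 j := by
        intro i hi
        rcases lt_or_gt_of_ne hi with h1 | h1
        · rcases ar3 _ _ (hx _ _ h1) with ⟨g, g', -, h2⟩ | h2
          · rw [h0] at h2
            exact absurd h2 (by simp)
          · exact h2
        · rcases ar3 _ _ (hx _ _ h1) with ⟨g, g', h2, -⟩ | h2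
          · rw [h0] at h2
            exact absurd h2 (by simp)
          · exact h2.symm
      obtain ⟨i1, hi1⟩ : ∃ i1 : Fin m, i1 ≠ i0 := by
        have : Nontrivial (Fin m) := Fin.nontrivial_iff_two_le.2 hm
        exact exists_ne i0
      have hall : ∀ i, ∃ j, x i = w0 j := by
        intro i
        by_cases hi : i = i0
        · rw [hi]
          exact (hadj i1 hi1).2
        · exact (hadj i hi).1
      choose y hy using hall
      have hx' : x = fun i => w0 (y i) := funext hy
      have hmono : StrictMono y := by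
        intro i j hij
        rw [← ar2, ← hy, ← hy]
        exact hx i j hij
      have hid := strictMono_eq_id hmono
      rw [hx', hid]
      exact hQ _ _ (fun p hp => (colw p hp).symm) hc
    · push Not at h
      have hall : ∀ i, ∃ g, x i = Sum.inl g := by
        intro i
        rcases hxi : x i with g | j
        · exact ⟨g, rfl⟩
        · exact absurd hxi (h i j)
      choose y hy using hall
      have hx' : x = fun i => Sum.inl (y i) := funext hy
      have h1 : Tr C.arc y := by
        intro i j hij
        rw [← ar1, ← hy, ← hy]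
        exact hx i j hij
      refine hQ _ _ ?_ (hC.good y h1)
      intro p _
      rw [hx']
      exact (colL _).symm
  obtain ⟨e, he⟩ := hC.embed Y id hgood (fun s : {i // i ∈ S} => Sum.inl (u s)) (fun s => u s) (by
    refine ⟨?_, ?_, ?_⟩
    · intro i j
      exact ⟨fun h => Sum.inl.inj h, fun h => congrArg Sum.inl h⟩
    · intro i j
      exact ar1 _ _
    · intro t _
      exact (colL _).symm)
  have he1 : ∀ i ∈ S, e (w0 i) = u i := by
    intro i hi
    have := (he.eq (Sum.inl ⟨i, hi⟩) (Sum.inr (w0 i))).1 (w0S i hi).symm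
    exact this.symm
  refine ⟨fun i => e (w0 i), ?_, he1, ?_⟩
  · intro i j hij
    exact (he.arc (Sum.inr (w0 i)) (Sum.inr (w0 j))).1 ((ar2 i j).2 hij)
  · intro p hp
    have h1 : Tr Y.arc (fun i => w0 (p i)) := fun i j hij => (ar2 _ _).2 (hp hij)
    have := he.col (fun i => Sum.inr (w0 (p i))) h1
    exact this.trans (colw p hp)

/-- Common out-neighbours. -/
theorem IsGen.common (hC : IsGen C Q) [Countable G] (hQ : Loc Q) {n : ℕ} (hm : n + (k + 1) < m)
    (x : Fin n → G) (a : A) :
    ∃ z : Fin (k + 1) → G, Tr C.arc z ∧ C.col z = a ∧ ∀ i j, C.arc (x i) (z j) := by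
  classical
  let ar : G ⊕ Fin (k + 1) → G ⊕ Fin (k + 1) → Prop := fun a b =>
    match a, b with
    | Sum.inl g, Sum.inl g' => C.arc g g'
    | Sum.inl g, Sum.inr _ => ∃ i, x i = g
    | Sum.inr _, Sum.inl _ => False
    | Sum.inr i, Sum.inr j => i < j
  let Y : CG k A (G ⊕ Fin (k + 1)) :=
    { arc := ar
      asymm := by
        rintro (g | i) (g' | j) h1 h2
        · exact C.asymm _ _ h1 h2
        · exact h2
        · exact h1
        · exact lt_asymm h1 h2
      col := fun t => if h : ∃ t' : Fin (k + 1) → G, t = fun i => Sum.inl (t' i) then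
          C.col h.choose else a }
  have colL : ∀ t : Fin (k + 1) → G, Y.col (fun i => Sum.inl (t i)) = C.col t := by
    intro t
    have h : ∃ t' : Fin (k + 1) → G,
        (fun i => (Sum.inl (t i) : G ⊕ Fin (k + 1))) = fun i => Sum.inl (t' i) := ⟨t, rfl⟩
    have h1 : Y.col (fun i => Sum.inl (t i)) = C.col h.choose := dif_pos h
    rw [h1]
    congr 1
    funext i
    exact (Sum.inl.inj (congrFun h.choose_spec i)).symm
  have colz : Y.col (fun i => Sum.inr i) = a := by
    refine dif_neg ?_
    rintro ⟨t', ht'⟩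
    exact absurd (congrFun ht' 0) (by simp)
  have hgood : ∀ y : Fin m → G ⊕ Fin (k + 1), Tr Y.arc y →
      Q (fun p => id (Y.col (fun i => y (p i)))) := by
    intro y hy
    by_cases h : ∃ i0 j0, y i0 = Sum.inr j0
    · exfalso
      obtain ⟨i0, j0, h0⟩ := h
      have hall : ∀ i, ∃ o : Fin n ⊕ Fin (k + 1), y i = Sum.map x id o := by
        intro i
        rcases hyi : y i with g | j
        · have hne : i ≠ i0 := by
            intro h1
            rw [h1, h0] at hyi
            exact absurd hyi (by simp)
          rcases lt_or_gt_of_ne hne with h1 | h1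
          · have h2 := hy _ _ h1
            rw [hyi, h0] at h2
            obtain ⟨l, hl⟩ : ∃ l, x l = g := h2
            exact ⟨Sum.inl l, by rw [← hl]; rfl⟩
          · have h2 := hy _ _ h1
            rw [hyi, h0] at h2
            exact absurd h2 (fun h => h)
        · exact ⟨Sum.inr j, rfl⟩
      choose o ho using hall
      have hinj : Function.Injective o := by
        intro i j hij
        apply Tr.injective Y hy
        rw [ho, ho, hij]
      have := Fintype.card_le_of_injective o hinj
      simp only [Fintype.card_fin, Fintype.card_sum] at this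
      omega
    · push Not at h
      have hall : ∀ i, ∃ g, y i = Sum.inl g := by
        intro i
        rcases hxi : y i with g | j
        · exact ⟨g, rfl⟩
        · exact absurd hxi (h i j)
      choose y' hy' using hall
      have hx' : y = fun i => Sum.inl (y' i) := funext hy'
      have h1 : Tr C.arc y' := by
        intro i j hij
        have := hy i j hij
        rw [hy' i, hy' j] at this
        exact this
      refine hQ _ _ ?_ (hC.good y' h1)
      intro p _
      rw [hx']
      exact (colL _).symm
  obtain ⟨e, he⟩ := hC.embed Y id hgood (fun i => Sum.inl (x i)) x (by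
    refine ⟨?_, ?_, ?_⟩
    · intro i j
      exact ⟨fun h => Sum.inl.inj h, fun h => congrArg Sum.inl h⟩
    · intro i j
      exact Iff.rfl
    · intro t _
      exact (colL _).symm)
  have he1 : ∀ i, e (Sum.inl (x i)) = x i := fun i =>
    ((he.eq (Sum.inl i) (Sum.inr (Sum.inl (x i)))).1 rfl).symm
  refine ⟨fun j => e (Sum.inr j), ?_, ?_, ?_⟩
  · intro i j hij
    exact (he.arc (Sum.inr (Sum.inr i)) (Sum.inr (Sum.inr j))).1 hij
  · have h1 : Tr Y.arc (fun i : Fin (k + 1) => Sum.inr i) := fun i j hij => hij
    exact (he.col (fun i => Sum.inr (Sum.inr i)) h1).trans colz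
  · intro i j
    have h1 : Y.arc (Sum.inl (x i)) (Sum.inr j) := ⟨i, rfl⟩
    have := (he.arc (Sum.inr (Sum.inl (x i))) (Sum.inr (Sum.inr j))).1 h1
    have h2 : C.arc (e (Sum.inl (x i))) (e (Sum.inr j)) := this
    rwa [he1] at h2

end

end Pool.Agent.H17.DG
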