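import Mathlib
import Pool.Agent.H17.DG.Attach
import Pool.Agent.H17.DG.Q

set_option autoImplicit false

/-!
# The generic oriented graph pp-constructs the template
-/

namespace Pool.Agent.H17.DG

open FirstOrder FirstOrder.Language Pool.Agent.H74.Stub Set

section

variable {L : FirstOrder.Language.{0, 0}} {A : Type} [L.Structure A]
  [Finite (Σ n, L.Relations n)] {k : ℕ} {G : Type} {C : CG k A G}

theorem blk_lt_iff {M k : ℕ} {b b' : Fin M} {j j' : Fin (k + 1)} :
    blk b j < blk b' j' ↔ b < b' ∨ (b = b' ∧ j < j') := by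
  constructor
  · intro h
    rcases lt_trichotomy b b' with h1 | h1 | h1
    · exact Or.inl h1
    · right
      subst h1
      exact ⟨rfl, (blk_strictMono b).lt_iff_lt.1 h⟩
    · exact absurd h (lt_asymm (blk_lt h1 j' j))
  · rintro (h | ⟨rfl, h⟩)
    · exact blk_lt h _ _
    · exact blk_strictMono b h

theorem exists_blk {M k : ℕ} (i : Fin (M * (k + 1))) : ∃ (b : Fin M) (j : Fin (k + 1)),
    i = blk b j := by
  refine ⟨(finProdFinEquiv.symm i).1, (finProdFinEquiv.symm i).2, ?_⟩
  unfold blk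
  rw [Prod.mk.eta, Equiv.apply_symm_apply]

/-- The relation `x → z` via a transitive tournament. -/
def EqA (L : FirstOrder.Language.{0, 0}) [L.Structure A] [Finite (Σ n, L.Relations n)]
    (C : CG k A G) (x z : Fin (k + 1) → G) : Prop :=
  ∃ w : Fin (sm L A k) → G, Tr C.arc w ∧ (∀ j, w (blk (b2 L A) j) = x j) ∧
    ∀ j, w (blk (b3 L A) j) = z j

/-- same colour -/
def Eq2 (L : FirstOrder.Language.{0, 0}) [L.Structure A] [Finite (Σ n, L.Relations n)]
    (C : CG k A G) (x y : Fin (k + 1) → G) : Prop :=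
  ∃ z : Fin (k + 1) → G, EqA L C x z ∧ EqA L C y z

theorem EqA.spec (hC : IsGen C (QQ L A k)) {x z : Fin (k + 1) → G} (h : EqA L C x z) :
    Tr C.arc x ∧ C.col x = C.col z := by
  obtain ⟨w, hw, hx, hz⟩ := h
  have hx' : x = fun j => w (blk (b2 L A) j) := funext fun j => (hx j).symm
  have hz' : z = fun j => w (blk (b3 L A) j) := funext fun j => (hz j).symm
  refine ⟨?_, ?_⟩
  · rw [hx']
    exact hw.comp (blk_strictMono _)
  · have := ((QQ_iff L A k _).1 (hC.good w hw)).1
    rw [hx', hz']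
    exact this

/-- a choice of tuples in the relations -/
theorem exists_val : ∃ val : Pl L A → A, ∀ r : NR L A,
    Structure.RelMap r.1.2 (fun i => val ⟨r, i⟩) :=
  ⟨fun a => a.1.2.choose a.2, fun r => r.2.choose_spec⟩

theorem exists_val' (r : NR L A) (t : Fin r.1.1 → A) (ht : Structure.RelMap r.1.2 t) :
    ∃ val : Pl L A → A, (∀ r : NR L A, Structure.RelMap r.1.2 (fun i => val ⟨r, i⟩)) ∧
      ∀ i, val ⟨r, i⟩ = t i := by
  classical
  let f : ∀ r : NR L A, Fin r.1.1 → A := Function.update (fun r => r.2.choose) r t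
  have hf : f r = t := Function.update_self _ _ _
  refine ⟨fun a => f a.1 a.2, ?_, ?_⟩
  · intro r'
    by_cases h : r' = r
    · subst h
      show Structure.RelMap _ (fun i => f r' i)
      rw [hf]
      exact ht
    · show Structure.RelMap _ (fun i => f r' i)
      have : f r' = r'.2.choose := Function.update_of_ne h _ _
      rw [this]
      exact r'.2.choose_spec
  · intro i
    show f r i = t i
    rw [hf]

theorem eqA_of (hC : IsGen C (QQ L A k)) [Countable G] {x z : Fin (k + 1) → G}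
    (hx : Tr C.arc x) (hz : Tr C.arc z) (hxz : ∀ i j, C.arc (x i) (z j))
    (hcol : C.col x = C.col z) : EqA L C x z := by
  classical
  obtain ⟨val, hval⟩ := exists_val (L := L) (A := A)
  let S : Set (Fin (sm L A k)) := {i | (finProdFinEquiv.symm i).1 = b2 L A ∨
    (finProdFinEquiv.symm i).1 = b3 L A}
  let u : Fin (sm L A k) → G := fun i => if (finProdFinEquiv.symm i).1 = b2 L A then
    x (finProdFinEquiv.symm i).2 else z (finProdFinEquiv.symm i).2
  have hS : ∀ b j, blk b j ∈ S ↔ b = b2 L A ∨ b = b3 L A := by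
    intro b j
    simp only [S, mem_ofPred_eq, blk, Equiv.symm_apply_apply]
  have hne : b3 L A ≠ b2 L A := (b2_lt_b3 L A).ne'
  have hu2 : ∀ j, u (blk (b2 L A) j) = x j := by
    intro j
    simp only [u, blk, Equiv.symm_apply_apply, if_true]
  have hu3 : ∀ j, u (blk (b3 L A) j) = z j := by
    intro j
    simp only [u, blk, Equiv.symm_apply_apply, if_neg hne]
  let c : (Fin (k + 1) → Fin (sm L A k)) → A := fun p =>
    if h : ∃ a : Pl L A, p = blk (pl L A a) then val h.choose else C.col (fun i => u (p i))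
  have hc1 : ∀ a, c (blk (pl L A a)) = val a := by
    intro a
    have h : ∃ a' : Pl L A, blk (k := k) (pl L A a) = blk (pl L A a') := ⟨a, rfl⟩
    have h1 : c (blk (pl L A a)) = val h.choose := dif_pos h
    rw [h1]
    congr 1
    exact (pl_injective L A (blk_injective h.choose_spec)).symm
  have hc2 : ∀ p : Fin (k + 1) → Fin (sm L A k), (¬ ∃ a : Pl L A, p = blk (pl L A a)) →
      c p = C.col (fun i => u (p i)) := fun p hp => dif_neg hp
  have hc3 : c (blk (b2 L A)) = C.col x := by
    rw [hc2 _ (by rintro ⟨a, ha⟩; exact pl_ne_b2 L A a (blk_injective ha).symm)]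
    congr 1
    funext i
    exact hu2 i
  have hc4 : c (blk (b3 L A)) = C.col z := by
    rw [hc2 _ (by rintro ⟨a, ha⟩; exact pl_ne_b3 L A a (blk_injective ha).symm)]
    congr 1
    funext i
    exact hu3 i
  have hsm := sm_large L A k
  obtain ⟨w, hw, hwS, -⟩ := hC.attach (QQ_loc L A k) (by omega) S u (by
    intro i hi j hj hij
    obtain ⟨b, i, rfl⟩ := exists_blk i
    obtain ⟨b', j, rfl⟩ := exists_blk j
    rw [hS] at hi hj
    rw [blk_lt_iff] at hij
    rcases hi with rfl | rfl <;> rcases hj with rfl | rfl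
    · rw [hu2, hu2]
      rcases hij with h | ⟨-, h⟩
      · exact absurd h (lt_irrefl _)
      · exact hx _ _ h
    · rw [hu2, hu3]
      exact hxz _ _
    · rcases hij with h | ⟨h, -⟩
      · exact absurd h (lt_asymm (b2_lt_b3 L A))
      · exact absurd h hne
    · rw [hu3, hu3]
      rcases hij with h | ⟨-, h⟩
      · exact absurd h (lt_irrefl _)
      · exact hz _ _ h) c (by
    rw [QQ_iff]
    refine ⟨by rw [hc3, hc4, hcol], fun r => ?_⟩
    simp only [hc1]
    exact hval r) (by
    intro p _ hp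
    symm
    apply hc2
    rintro ⟨a, rfl⟩
    rcases (hS _ _).1 (hp 0) with h | h
    · exact pl_ne_b2 L A a h
    · exact pl_ne_b3 L A a h)
  refine ⟨w, hw, fun j => ?_, fun j => ?_⟩
  · rw [hwS _ ((hS _ _).2 (Or.inl rfl)), hu2]
  · rw [hwS _ ((hS _ _).2 (Or.inr rfl)), hu3]

theorem eq2_iff (hC : IsGen C (QQ L A k)) [Countable G] (x y : Fin (k + 1) → G) :
    Eq2 L C x y ↔ Tr C.arc x ∧ Tr C.arc y ∧ C.col x = C.col y := by
  constructor
  · rintro ⟨z, h1, h2⟩
    exact ⟨(h1.spec hC).1, (h2.spec hC).1, (h1.spec hC).2.trans (h2.spec hC).2.symm⟩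
  · rintro ⟨hx, hy, hxy⟩
    have hsm := sm_large L A k
    obtain ⟨z, hz, hcol, hxz⟩ := hC.common (QQ_loc L A k) (n := (k + 1) + (k + 1)) (by omega)
      (Fin.append x y) (C.col x)
    refine ⟨z, eqA_of hC hx hz (fun i j => ?_) hcol.symm, eqA_of hC hy hz (fun i j => ?_) ?_⟩
    · have := hxz (Fin.castAdd _ i) j
      rwa [Fin.append_left] at this
    · have := hxz (Fin.natAdd _ i) j
      rwa [Fin.append_right] at this
    · rw [hcol, hxy]

/-- the relations of the pp-power -/
def RT (L : FirstOrder.Language.{0, 0}) [L.Structure A] [Finite (Σ n, L.Relations n)]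
    (C : CG k A G) (r : NR L A) (x : Fin r.1.1 → Fin (k + 1) → G) : Prop :=
  ∃ w : Fin (sm L A k) → G, Tr C.arc w ∧
    ∀ i, Eq2 L C (x i) (fun j => w (blk (pl L A ⟨r, i⟩) j))

theorem rt_iff (hC : IsGen C (QQ L A k)) [Countable G] [Nonempty A] (r : NR L A)
    (x : Fin r.1.1 → Fin (k + 1) → G) :
    RT L C r x ↔ (∀ i, Tr C.arc (x i)) ∧ Structure.RelMap r.1.2 (fun i => C.col (x i)) := by
  classical
  constructor
  · rintro ⟨w, hw, h⟩
    have h1 := fun i => (eq2_iff hC _ _).1 (h i)
    refine ⟨fun i => (h1 i).1, ?_⟩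
    have h2 : (fun i => C.col (x i)) = fun i => C.col (fun j => w (blk (pl L A ⟨r, i⟩) j)) :=
      funext fun i => (h1 i).2.2
    rw [h2]
    exact ((QQ_iff L A k _).1 (hC.good w hw)).2 r
  · rintro ⟨hx, hr⟩
    obtain ⟨val, hval, hval'⟩ := exists_val' r _ hr
    let a0 : A := Classical.arbitrary A
    let c : (Fin (k + 1) → Fin (sm L A k)) → A := fun p =>
      if h : ∃ a : Pl L A, p = blk (pl L A a) then val h.choose else a0
    have hc1 : ∀ a, c (blk (pl L A a)) = val a := by
      intro a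
      have h : ∃ a' : Pl L A, blk (k := k) (pl L A a) = blk (pl L A a') := ⟨a, rfl⟩
      have h1 : c (blk (pl L A a)) = val h.choose := dif_pos h
      rw [h1]
      congr 1
      exact (pl_injective L A (blk_injective h.choose_spec)).symm
    have hc2 : ∀ p : Fin (k + 1) → Fin (sm L A k), (¬ ∃ a : Pl L A, p = blk (pl L A a)) →
        c p = a0 := fun p hp => dif_neg hp
    have hc3 : c (blk (b2 L A)) = a0 :=
      hc2 _ (by rintro ⟨a, ha⟩; exact pl_ne_b2 L A a (blk_injective ha).symm)
    have hc4 : c (blk (b3 L A)) = a0 :=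
      hc2 _ (by rintro ⟨a, ha⟩; exact pl_ne_b3 L A a (blk_injective ha).symm)
    have hsm := sm_large L A k
    by_cases hG : Nonempty G
    · obtain ⟨w, hw, -, hcol⟩ := hC.attach (QQ_loc L A k) (by omega) ∅
        (fun _ => Classical.arbitrary G) (fun i hi => absurd hi (notMem_empty i)) c (by
          rw [QQ_iff]
          refine ⟨by rw [hc3, hc4], fun r => ?_⟩
          simp only [hc1]
          exact hval r) (fun p _ hp => absurd (hp 0) (notMem_empty _))
      refine ⟨w, hw, fun i => (eq2_iff hC _ _).2 ⟨hx i, hw.comp (blk_strictMono _), ?_⟩⟩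
      rw [hcol _ (blk_strictMono _), hc1, hval']
    · exfalso
      obtain ⟨z, -⟩ := hC.common (QQ_loc L A k) (n := 0) (by omega) (fun i => i.elim0) a0
      exact hG ⟨z 0⟩

/-! ### pp-definability -/

theorem pp_arc {I : Type} (E : G → G → Prop) (i j : I) :
    @PPDefinable Dig G (digStr E) I {x : I → G | E (x i) (x j)} := by
  let _ := digStr E
  have := pp_rel (L := Dig) (M := G) (I := I) (n := 2) ArcRel.arc ![i, j]
  exact this

theorem pp_tr (E : G → G → Prop) {I : Type} {n : ℕ} (t : Fin n → I) :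
    @PPDefinable Dig G (digStr E) I {x : I → G | Tr E (fun i => x (t i))} := by
  let _ := digStr E
  have h1 : {x : I → G | Tr E (fun i => x (t i))} =
      ⋂ p : {p : Fin n × Fin n // p.1 < p.2}, {x : I → G | E (x (t p.1.1)) (x (t p.1.2))} := by
    ext x
    simp only [mem_ofPred_eq, mem_iInter]
    exact ⟨fun h p => h _ _ p.2, fun h i j hij => h ⟨(i, j), hij⟩⟩
  rw [h1]
  exact pp_iInter fun p => pp_arc E _ _

theorem pp_eqA : @PPDefinable Dig G (digStr C.arc) (Fin 2 × Fin (k + 1))
    {x | EqA L C (fun j => x (0, j)) (fun j => x (1, j))} := by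
  let _ := digStr C.arc
  have h1 : PPDefinable Dig {x : (Fin 2 × Fin (k + 1)) ⊕ Fin (sm L A k) → G |
      Tr C.arc (fun i => x (Sum.inr i))} := pp_tr C.arc _
  have h2 : PPDefinable Dig (⋂ j : Fin (k + 1), {x : (Fin 2 × Fin (k + 1)) ⊕ Fin (sm L A k) → G |
      x (Sum.inr (blk (b2 L A) j)) = x (Sum.inl (0, j))}) := pp_iInter fun j => pp_eq _ _
  have h3 : PPDefinable Dig (⋂ j : Fin (k + 1), {x : (Fin 2 × Fin (k + 1)) ⊕ Fin (sm L A k) → G |
      x (Sum.inr (blk (b3 L A) j)) = x (Sum.inl (1, j))}) := pp_iInter fun j => pp_eq _ _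
  have h4 := pp_exists (pp_inter h1 (pp_inter h2 h3))
  convert h4 using 1
  ext x
  simp only [mem_ofPred_eq, mem_inter_iff, mem_iInter, Sum.elim_inr, Sum.elim_inl]
  rfl

theorem pp_eq2 : @PPDefinable Dig G (digStr C.arc) (Fin 2 × Fin (k + 1))
    {x | Eq2 L C (fun j => x (0, j)) (fun j => x (1, j))} := by
  let _ := digStr C.arc
  have h0 : PPDefinable Dig {x : Fin 2 × Fin (k + 1) → G |
      EqA L C (fun j => x (0, j)) (fun j => x (1, j))} := pp_eqA
  have h1 := pp_comap (J := (Fin 2 × Fin (k + 1)) ⊕ Fin (k + 1))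
    (fun p : Fin 2 × Fin (k + 1) => if p.1 = 0 then Sum.inl (0, p.2) else Sum.inr p.2) h0
  have h2 := pp_comap (J := (Fin 2 × Fin (k + 1)) ⊕ Fin (k + 1))
    (fun p : Fin 2 × Fin (k + 1) => if p.1 = 0 then Sum.inl (1, p.2) else Sum.inr p.2) h0
  have h4 := pp_exists (pp_inter h1 h2)
  have h5 : {x : Fin 2 × Fin (k + 1) → G | Eq2 L C (fun j => x (0, j)) (fun j => x (1, j))} =
      {x | ∃ y, Sum.elim x y ∈
        {x : (Fin 2 × Fin (k + 1)) ⊕ Fin (k + 1) → G |
          (fun i => x ((fun p : Fin 2 × Fin (k + 1) =>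
            if p.1 = 0 then Sum.inl (0, p.2) else Sum.inr p.2) i)) ∈
          {x : Fin 2 × Fin (k + 1) → G | EqA L C (fun j => x (0, j)) (fun j => x (1, j))}} ∩
        {x : (Fin 2 × Fin (k + 1)) ⊕ Fin (k + 1) → G |
          (fun i => x ((fun p : Fin 2 × Fin (k + 1) =>
            if p.1 = 0 then Sum.inl (1, p.2) else Sum.inr p.2) i)) ∈
          {x : Fin 2 × Fin (k + 1) → G | EqA L C (fun j => x (0, j)) (fun j => x (1, j))}}} := by
    ext x
    exact Iff.rfl
  rw [h5]
  exact h4

theorem pp_rt (r : NR L A) : @PPDefinable Dig G (digStr C.arc) (Fin r.1.1 × Fin (k + 1))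
    {x | RT L C r (fun i j => x (i, j))} := by
  let _ := digStr C.arc
  have h1 : PPDefinable Dig {x : (Fin r.1.1 × Fin (k + 1)) ⊕ Fin (sm L A k) → G |
      Tr C.arc (fun i => x (Sum.inr i))} := pp_tr C.arc _
  have h0 : PPDefinable Dig {x : Fin 2 × Fin (k + 1) → G |
      Eq2 L C (fun j => x (0, j)) (fun j => x (1, j))} := pp_eq2
  have h2 := fun i : Fin r.1.1 => pp_comap (J := (Fin r.1.1 × Fin (k + 1)) ⊕ Fin (sm L A k))
    (fun p : Fin 2 × Fin (k + 1) => if p.1 = 0 then Sum.inl (i, p.2) else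
      Sum.inr (blk (pl L A ⟨r, i⟩) p.2)) h0
  have h3 := pp_exists (pp_inter h1 (pp_iInter h2))
  convert h3 using 1
  ext x
  simp only [mem_ofPred_eq, mem_inter_iff, mem_iInter, Sum.elim_inr]
  rfl

/-- The generic oriented graph pp-constructs the template. -/
theorem ppConstructs_template [L.IsRelational] [Nonempty A] [Countable G]
    (hC : IsGen C (QQ L A k)) :
    @PPConstructs Dig G (digStr C.arc) L A _ := by
  classical
  let _ := digStr C.arc
  have hsm := sm_large L A k
  let P : L.Structure (Fin (k + 1) → G) :=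
    { funMap := fun f => isEmptyElim f
      RelMap := fun {n} R w => (∀ i, Tr C.arc (w i)) ∧
        Structure.RelMap R (fun i => C.col (w i)) }
  refine ⟨k + 1, P, Nat.succ_pos k, ?_, ?_, ?_⟩
  · intro n R
    by_cases h : ∃ x : Fin n → A, Structure.RelMap R x
    · have h1 : PPDefinable Dig {x : Fin n × Fin (k + 1) → G |
        RT L C (⟨⟨n, R⟩, h⟩ : NR L A) (fun i j => x (i, j))} :=
        pp_rt (⟨⟨n, R⟩, h⟩ : NR L A)
      convert h1 using 1
      ext x
      exact (rt_iff hC (⟨⟨n, R⟩, h⟩ : NR L A) (fun i j => x (i, j))).symm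
    · have h1 : {w : Fin n × Fin (k + 1) → G | P.RelMap R fun i j => w (i, j)} = ∅ := by
        ext x
        constructor
        · intro hx
          exact absurd ⟨_, hx.2⟩ h
        · intro hx
          exact absurd hx (notMem_empty _)
      rw [h1]
      exact pp_empty
  · exact ⟨{ toFun := C.col, map_fun' := fun f => isEmptyElim f, map_rel' := fun R w hw => hw.2 }⟩
  · have h1 : ∀ a : A, ∃ z : Fin (k + 1) → G, Tr C.arc z ∧ C.col z = a := by
      intro a
      obtain ⟨z, h1, h2, -⟩ := hC.common (QQ_loc L A k) (n := 0) (by omega) (fun i => i.elim0) a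
      exact ⟨z, h1, h2⟩
    choose z hz1 hz2 using h1
    refine ⟨{ toFun := z, map_fun' := fun f => isEmptyElim f, map_rel' := fun R w hw => ?_ }⟩
    refine ⟨fun i => hz1 _, ?_⟩
    have : (fun i => C.col ((z ∘ w) i)) = w := funext fun i => hz2 _
    rw [this]
    exact hw

end

end Pool.Agent.H17.DG
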