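import Mathlib
import Pool.Agent.H17.DG.FB
import Pool.Agent.H17.DG.PPC
import Pool.Agent.H17.DG.K3

set_option autoImplicit false

/-!
# The reduction to oriented graphs
-/

namespace Pool.Agent.H17.DG

open FirstOrder FirstOrder.Language Pool.Agent.H74.Stub Set

theorem reduction (k : ℕ) (L : FirstOrder.Language.{0, 0}) (A : Type) [L.Structure A]
    (hA : InScope L A) :
    ∃ (G : Type) (E : G → G → Prop), OrientedTemplate k G E ∧
      @PPConstructs Dig G (digStr E) L A _ ∧
      (@PPConstructs Dig G (digStr E) Dig (Fin 3) K3 ↔ @PPConstructs L A _ Dig (Fin 3) K3) ∧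
      TournamentReduction k G E L A := by
  classical
  obtain ⟨⟨hrel, hfin⟩, hcount, hne, LB, sB, hLB, hB, hFB, hR⟩ := hA
  have hrelB := hLB.1
  obtain ⟨G, hG, C, hC⟩ := exists_isGen k A (sm_pos L A k) (QQ L A k) (QQ_loc L A k)
  have hsm := sm_large L A k
  have hGne : Nonempty G := by
    obtain ⟨z, -⟩ := hC.common (QQ_loc L A k) (n := 0) (by omega) (fun i => i.elim0)
      (Classical.arbitrary A)
    exact ⟨z 0⟩
  have hno := noAlg hC
  have hinf : Infinite G := by
    obtain ⟨x⟩ := hGne
    have h1 := hno ∅ x (by simp)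
    exact Set.infinite_univ_iff.1 (h1.mono (subset_univ _))
  have hpp : @PPConstructs Dig G (digStr C.arc) L A _ := ppConstructs_template hC
  refine ⟨G, C.arc, ⟨?_, hinf, C.asymm, kHomog hC, hno⟩, hpp, ?_, ?_⟩
  · let _ := digStr C.arc
    exact ⟨finRel_dig, hG, hGne, LBp LB k, strB LB C, finRel_LBp hLB k, homogB hB hC hR,
      finitelyBounded hLB hB hFB hC hR, reductB⟩
  · constructor
    · intro h
      exact k3_of_generic (lQ L A k) hC (by omega) h
    · intro h
      let _ := digStr C.arc
      let _ := K3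
      exact ppConstructs_trans hpp h
  · refine ⟨sm L A k, lQ L A k, fun X _ F => ?_⟩
    have : Countable X := Finite.to_countable
    exact hC.csp_iff F

end Pool.Agent.H17.DG
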